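import Mathlib

/-!
Project H874-MQ (MP_9de1de_an, question Q2): definitions and task statements.
All functions live on the half line `Iio 1`; `w` vanishes on `Iic c`, `0 < c < 1`.
-/

set_option autoImplicit false

open Real Set MeasureTheory
open scoped ContDiff

namespace Pool.Agent.H874R3.MQ

/-- smooth on `Iio 1` and zero on `Iic c` -/
def XX (c : ℝ) (w : ℝ → ℝ) : Prop := ContDiffOn ℝ ∞ w (Iio 1) ∧ ∀ s ≤ c, w s = 0

/-- the lift `G(s) = ∫ w(s - v^2) dv` -/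
noncomputable def GG (w : ℝ → ℝ) (s : ℝ) : ℝ := ∫ v in (-1:ℝ)..1, w (s - v ^ 2)

/-- cut-off: one for `q ≤ 1/4`, zero for `q ≥ 1/2` -/
noncomputable def chi (q : ℝ) : ℝ := Real.smoothTransition (2 - 4 * q)

noncomputable def psi (q : ℝ) : ℝ := (1 - 2 * q) * chi q / √(1 - q)

noncomputable def Psi (z : ℝ) : ℝ := ∫ φ in (0:ℝ)..(π / 2), psi (z * cos φ ^ 2)

/-- the circle operator -/
noncomputable def TT (p : ℝ → ℝ) (G : ℝ → ℝ) (s : ℝ) : ℝ :=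
  ∫ t in (0:ℝ)..π, G (s - p s * (1 - cos t)) * cos t

/-- its part away from the outer tangent point -/
noncomputable def Tin (p : ℝ → ℝ) (G : ℝ → ℝ) (s : ℝ) : ℝ :=
  ∫ t in (0:ℝ)..π, G (s - p s * (1 - cos t)) * (cos t * (1 - chi (sin (t / 2) ^ 2)))

/-- TASK PSI (40 lines): `psi` and `Psi` are smooth, `Psi 0 = π / 2`. -/
def TaskPsi : Prop := ContDiff ℝ ∞ psi ∧ ContDiff ℝ ∞ Psi ∧ Psi 0 = π / 2

/-- TASK OUT (120 lines): the part near the outer tangent point, by polar coordinates. -/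
def TaskOut : Prop :=
  ∀ (w : ℝ → ℝ) (c P s : ℝ), ContinuousOn w (Iio 1) → 0 < c → (∀ s ≤ c, w s = 0) → 0 < P → s < 1 →
    ∫ t in (0:ℝ)..π, GG w (s - P * (1 - cos t)) * (cos t * chi (sin (t / 2) ^ 2)) =
      2 / √(2 * P) * ∫ z in (0:ℝ)..1, w (s - z) * Psi (z / (2 * P))

/-- TASK IN (80 lines): smoothness and delay of the inner part. -/
def TaskIn : Prop :=
  ∀ (p : ℝ → ℝ) (c : ℝ), ContDiff ℝ ∞ p → (∀ s < 1, 0 < p s) → 0 < c → c < 1 →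
    (∀ w, XX c w → XX c (Tin p (GG w))) ∧
    (∀ d < 1, ∃ δ > 0, ∀ (w w' : ℝ → ℝ) (e : ℝ), XX c w → XX c w' → (∀ s < e, w s = w' s) →
      ∀ s, s < d → s < e + δ → Tin p (GG w) s = Tin p (GG w') s)

/-- TASK VOL (200 lines): causal solution operator of a Volterra equation of the second kind. -/
def TaskVol : Prop :=
  ∀ (M : ℝ → ℝ → ℝ) (c : ℝ), c < 1 → ContDiffOn ℝ ∞ (Function.uncurry M) (Iio 1 ×ˢ univ) →
    ∃ V : (ℝ → ℝ) → (ℝ → ℝ),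
      (∀ F, XX c F → XX c (V F) ∧ ∀ s < 1, V F s = F s + ∫ x in c..s, M s x * V F x) ∧
      (∀ (F F' : ℝ → ℝ) (e : ℝ), XX c F → XX c F' → (∀ s < e, F s = F' s) →
        ∀ s < e, V F s = V F' s)

/-- TASK ITER (60 lines): fixed point of an operator with delay. -/
def TaskIter : Prop :=
  ∀ (c : ℝ) (S : (ℝ → ℝ) → (ℝ → ℝ)), c < 1 → (∀ w, XX c w → XX c (S w)) →
    (∀ d < 1, ∃ δ > 0, ∀ (w w' : ℝ → ℝ) (e : ℝ), XX c w → XX c w' → (∀ s < e, w s = w' s) →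
      ∀ s, s < d → s < e + δ → S w s = S w' s) →
    ∃ w, XX c w ∧ ∀ s < 1, S w s = w s

/-- TASK DER (80 lines): differentiation of the outer part (Leibniz rule). -/
def TaskDer : Prop :=
  ∀ (K : ℝ → ℝ → ℝ) (c : ℝ) (w : ℝ → ℝ), c < 1 →
    ContDiffOn ℝ ∞ (Function.uncurry K) (Iio 1 ×ˢ univ) →
    ContinuousOn w (Iio 1) → ∀ s < 1,
      HasDerivAt (fun σ => ∫ x in c..σ, K σ x * w x)
        (K s s * w s + ∫ x in c..s, deriv (fun σ => K σ x) s * w x) s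

/-- THEOREM A: solvability of the circle equation. -/
def ThmA : Prop :=
  ∀ (p : ℝ → ℝ) (c : ℝ) (Φ : ℝ → ℝ), ContDiff ℝ ∞ p → (∀ s < 1, 0 < p s) → 0 < c → c < 1 →
    XX c Φ → ∃ w, XX c w ∧ ∀ s < 1, TT p (GG w) s = Φ s

/-- TASK SM (40 lines): smoothness of `GG w` and of `TT p G`. -/
def TaskSm : Prop :=
  (∀ (c : ℝ) (w : ℝ → ℝ), 0 < c → XX c w → XX c (GG w)) ∧
  (∀ p G : ℝ → ℝ, ContDiff ℝ ∞ p → ContDiff ℝ ∞ G → ContDiff ℝ ∞ (TT p G))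

/-- TASK CIRC (80 lines): the circle integral of a radial function. -/
def TaskCirc : Prop :=
  ∀ (G : ℝ → ℝ) (z : ℂ) (r : ℝ), ContinuousOn G (Iio 1) → 0 ≤ r → ‖z‖ + r < 1 →
    ∫ t in (0:ℝ)..π, G ((‖z‖ + r) ^ 2 - 2 * ‖z‖ * r * (1 - cos t)) * cos t = 0 →
    (∮ ζ in C(z, r), ((G (‖ζ‖ ^ 2) : ℝ) : ℂ)) = 0

/-- TASK P (50 lines): the coefficient `2 x r` as a smooth function of `(x + r)^2`. -/
def TaskP : Prop :=
  ∀ α x0 : ℝ, 0 < α → α < 1 → 0 < x0 → x0 < 1 →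
    ∃ p : ℝ → ℝ, ContDiff ℝ ∞ p ∧ (∀ s < 1, 0 < p s) ∧
      ∀ x, x0 ≤ x → x < 1 → p ((x + α * (1 - x)) ^ 2) = 2 * x * (α * (1 - x))

/-- negative answer to Q2 for every `α < 1` -/
def Final : Prop :=
  ∀ α : ℝ, 0 < α → α < 1 → ∃ f : ℂ → ℂ, ContinuousOn f (Metric.ball 0 1) ∧
    (∀ z ∈ Metric.ball (0 : ℂ) 1, (∮ ζ in C(z, α * (1 - ‖z‖)), f ζ) = 0) ∧
    ¬ DifferentiableOn ℂ f (Metric.ball 0 1)

end Pool.Agent.H874R3.MQ
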