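import Mathlib
import Pool.Agent.H874R3.MQ.Stmts

/-! Assembly of Theorem A. -/

set_option autoImplicit false

open Real Set MeasureTheory Filter Topology
open scoped ContDiff

namespace Pool.Agent.H874R3.MQ

lemma XX.deriv {c : ℝ} (hc : c < 1) {f : ℝ → ℝ} (hf : XX c f) : XX c (deriv f) := by
  refine ⟨hf.1.deriv_of_isOpen isOpen_Iio (by simp), fun s hs => ?_⟩
  have h1 : HasDerivAt f (_root_.deriv f s) s :=
    ((hf.1.differentiableOn (by simp)).differentiableAt
      (isOpen_Iio.mem_nhds (lt_of_le_of_lt hs hc))).hasDerivAt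
  have h2 : HasDerivWithinAt f 0 (Iic s) s :=
    (hasDerivWithinAt_const s (Iic s) (0:ℝ)).congr (fun x hx => hf.2 x (le_trans hx hs))
      (hf.2 s hs)
  exact (uniqueDiffWithinAt_Iic s).eq_deriv _ h1.hasDerivWithinAt h2

lemma chi_continuous : Continuous chi := by
  unfold chi
  exact Real.smoothTransition.continuous.comp (by fun_prop)

theorem thmA (hPsi : TaskPsi) (hOut : TaskOut) (hIn : TaskIn) (hVol : TaskVol)
    (hIter : TaskIter) (hDer : TaskDer) (hSm : TaskSm) : ThmA := by
  intro p c Φ hp hpos hc0 hc1 hΦ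
  obtain ⟨-, hPsis, hPsi0⟩ := hPsi
  have hπ : (0:ℝ) < π := Real.pi_pos
  -- kernel
  set K : ℝ → ℝ → ℝ := fun σ x => Psi ((σ - x) / (2 * p σ)) with hK
  have hKs : ContDiffOn ℝ ∞ (Function.uncurry K) (Iio 1 ×ˢ univ) := by
    have h1 : ContDiffOn ℝ ∞ (fun q : ℝ × ℝ => (q.1 - q.2) / (2 * p q.1)) (Iio 1 ×ˢ univ) := by
      apply ContDiffOn.div
      · exact (contDiff_fst.sub contDiff_snd).contDiffOn
      · exact (contDiff_const.mul (hp.comp contDiff_fst)).contDiffOn
      · rintro ⟨a, b⟩ hq
        have := hpos a hq.1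
        positivity
    exact hPsis.comp_contDiffOn h1
  have hopen : IsOpen ((Iio (1:ℝ)) ×ˢ (univ : Set ℝ)) := isOpen_Iio.prod isOpen_univ
  set K1 : ℝ → ℝ → ℝ := fun s x => deriv (fun σ => K σ x) s with hK1
  have hK1s : ContDiffOn ℝ ∞ (Function.uncurry K1) (Iio 1 ×ˢ univ) := by
    have h1 : ContDiffOn ℝ ∞ (fun q : ℝ × ℝ => fderiv ℝ (Function.uncurry K) q ((1:ℝ), (0:ℝ)))
        (Iio 1 ×ˢ univ) :=
      (hKs.fderiv_of_isOpen hopen (by simp)).clm_apply contDiffOn_const
    refine h1.congr ?_
    rintro ⟨s, x⟩ hq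
    have hd : HasFDerivAt (Function.uncurry K) (fderiv ℝ (Function.uncurry K) (s, x)) (s, x) :=
      ((hKs.differentiableOn (by simp)).differentiableAt (hopen.mem_nhds hq)).hasFDerivAt
    have hl : HasDerivAt (fun σ : ℝ => (σ, x)) ((1:ℝ), (0:ℝ)) s :=
      (hasDerivAt_id s).prodMk (hasDerivAt_const s x)
    have := hd.comp_hasDerivAt s hl
    exact this.deriv
  set M : ℝ → ℝ → ℝ := fun s x => -(2 / π) * K1 s x with hM
  have hMs : ContDiffOn ℝ ∞ (Function.uncurry M) (Iio 1 ×ˢ univ) :=
    (contDiffOn_const (c := -(2 / π))).mul hK1s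
  obtain ⟨V, hV1, hV2⟩ := hVol M c hc1 hMs
  -- the factor
  set R : ℝ → ℝ := fun s => √(2 * p s) / 2 with hR
  have hRs : ContDiffOn ℝ ∞ R (Iio 1) := by
    apply ContDiffOn.div_const
    intro s hs
    have h0 : 2 * p s ≠ 0 := by have := hpos s hs; positivity
    exact ((contDiff_const.mul hp).contDiffAt.sqrt h0).contDiffWithinAt
  have hRpos : ∀ s < 1, 0 < R s := by
    intro s hs
    have := hpos s hs
    simp only [hR]; positivity
  obtain ⟨hIn1, hIn2⟩ := hIn p c hp hpos hc0 hc1
  set B : (ℝ → ℝ) → ℝ → ℝ := fun w s => R s * Tin p (GG w) s with hB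
  set D : ℝ → ℝ := fun s => R s * Φ s with hD
  have hmulXX : ∀ f, XX c f → XX c (fun s => R s * f s) := fun f hf =>
    ⟨hRs.mul hf.1, fun s hs => by simp [hf.2 s hs]⟩
  have hDB : ∀ w, XX c w → XX c (fun s => D s - B w s) := fun w hw =>
    ⟨(hmulXX Φ hΦ).1.sub (hmulXX _ (hIn1 w hw)).1, fun s hs => by
      have h1 : D s = 0 := (hmulXX Φ hΦ).2 s hs
      have h2 : B w s = 0 := (hmulXX _ (hIn1 w hw)).2 s hs
      change D s - B w s = 0
      rw [h1, h2, sub_zero]⟩
  set N : (ℝ → ℝ) → ℝ → ℝ := fun w s => (2 / π) * deriv (fun σ => D σ - B w σ) s with hN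
  have hNX : ∀ w, XX c w → XX c (N w) := fun w hw => by
    have h := (hDB w hw).deriv hc1
    exact ⟨contDiffOn_const.mul h.1, fun s hs => by
      change (2 / π) * deriv (fun σ => D σ - B w σ) s = 0
      rw [h.2 s hs, mul_zero]⟩
  obtain ⟨w, hw, hfix⟩ := hIter c (fun w => V (N w)) hc1 (fun w hw => (hV1 _ (hNX w hw)).1) (by
    intro d hd
    obtain ⟨δ, hδ, h⟩ := hIn2 d hd
    refine ⟨δ, hδ, fun w w' e hw hw' hww s hsd hse => ?_⟩
    refine hV2 (N w) (N w') (min d (e + δ)) (hNX w hw) (hNX w' hw') ?_ s (lt_min hsd hse)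
    intro x hx
    have hev : (fun σ => D σ - B w σ) =ᶠ[𝓝 x] (fun σ => D σ - B w' σ) := by
      filter_upwards [isOpen_Iio.mem_nhds hx] with y hy
      have hy1 : y < d := lt_of_lt_of_le hy (min_le_left _ _)
      have hy2 : y < e + δ := lt_of_lt_of_le hy (min_le_right _ _)
      simp only [hB]
      rw [h w w' e hw hw' hww y hy1 hy2]
    simp only [hN]
    rw [hev.deriv_eq])
  refine ⟨w, hw, ?_⟩
  have hwc : ContinuousOn w (Iio 1) := hw.1.continuousOn
  -- the Volterra equation for w
  have hVeq : ∀ s < 1, w s = N w s + ∫ x in c..s, M s x * w x := by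
    intro s hs
    have h1 := (hV1 _ (hNX w hw)).2 s hs
    have h2 : V (N w) s = w s := hfix s hs
    rw [h2] at h1
    rw [h1]
    congr 1
    apply intervalIntegral.integral_congr
    intro x hx
    have hx1 : x < 1 := lt_of_le_of_lt hx.2 (max_lt hc1 hs)
    simp only
    rw [show V (N w) x = w x from hfix x hx1]
  set A : ℝ → ℝ := fun σ => ∫ x in c..σ, K σ x * w x with hA
  have hA' : ∀ s < 1, HasDerivAt A (deriv (fun σ => D σ - B w σ) s) s := by
    intro s hs
    have h1 := hDer K c w hc1 hKs hwc s hs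
    have h2 : K s s = π / 2 := by simp only [hK, sub_self, zero_div, hPsi0]
    have h3 : ∫ x in c..s, M s x * w x = -(2 / π) * ∫ x in c..s, K1 s x * w x := by
      rw [← intervalIntegral.integral_const_mul]
      apply intervalIntegral.integral_congr
      intro x _
      simp only [hM]; ring
    have h4 := hVeq s hs
    rw [h3] at h4
    have h5 : K s s * w s + ∫ x in c..s, deriv (fun σ => K σ x) s * w x =
        deriv (fun σ => D σ - B w σ) s := by
      rw [h2]
      change π / 2 * w s + ∫ x in c..s, K1 s x * w x = _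
      have h6 : N w s = (2 / π) * deriv (fun σ => D σ - B w σ) s := rfl
      rw [h6] at h4
      rw [h4]
      field_simp
      ring
    rw [h5] at h1
    exact h1
  have hAeq : ∀ s < 1, A s = D s - B w s := by
    have hdiff : ∀ s < 1, HasDerivAt (fun σ => D σ - B w σ) (deriv (fun σ => D σ - B w σ) s) s := by
      intro s hs
      exact (((hDB w hw).1.differentiableOn (by simp)).differentiableAt
        (isOpen_Iio.mem_nhds hs)).hasDerivAt
    have hE : ∀ s < 1, HasDerivAt (fun σ => A σ - (D σ - B w σ)) 0 s := by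
      intro s hs
      have := (hA' s hs).sub (hdiff s hs)
      rwa [sub_self] at this
    obtain ⟨a, ha⟩ := isOpen_Iio.exists_is_const_of_deriv_eq_zero
      (s := Iio (1:ℝ)) (f := fun σ => A σ - (D σ - B w σ)) isPreconnected_Iio
      (fun s hs => (hE s hs).differentiableAt.differentiableWithinAt)
      (fun s hs => (hE s hs).deriv)
    have hca : a = 0 := by
      rw [← ha c hc1]
      have h1 : A c = 0 := by simp [hA]
      have h2 : D c - B w c = 0 := (hDB w hw).2 c le_rfl
      simp only [h1, h2, sub_zero]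
    intro s hs
    have := ha s hs
    rw [hca] at this
    linarith
  intro s hs
  have hps : 0 < p s := hpos s hs
  have hGG := hSm.1 c w hc0 hw
  -- splitting
  have hcont : Continuous fun t : ℝ => GG w (s - p s * (1 - cos t)) := by
    apply hGG.1.continuousOn.comp_continuous (by fun_prop)
    intro t
    have h1 : 0 ≤ p s * (1 - cos t) := mul_nonneg hps.le (by linarith [cos_le_one t])
    simp only [mem_Iio]
    linarith
  have hchi : Continuous fun t : ℝ => chi (sin (t / 2) ^ 2) := chi_continuous.comp (by fun_prop)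
  have hsplit : TT p (GG w) s =
      (∫ t in (0:ℝ)..π, GG w (s - p s * (1 - cos t)) * (cos t * chi (sin (t / 2) ^ 2))) +
        Tin p (GG w) s := by
    unfold TT Tin
    rw [← intervalIntegral.integral_add]
    · apply intervalIntegral.integral_congr
      intro t _
      simp only
      ring
    · exact (hcont.mul (continuous_cos.mul hchi)).intervalIntegrable _ _
    · exact (hcont.mul (continuous_cos.mul (continuous_const.sub hchi))).intervalIntegrable _ _
  have hout := hOut w c (p s) s hwc hc0 hw.2 hps hs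
  have hsub : ∫ z in (0:ℝ)..1, w (s - z) * Psi (z / (2 * p s)) = A s := by
    have h1 : ∫ z in (0:ℝ)..1, w (s - z) * Psi (z / (2 * p s)) =
        ∫ x in (s - 1)..(s - 0), K s x * w x := by
      rw [← intervalIntegral.integral_comp_sub_left (fun x => K s x * w x) s]
      apply intervalIntegral.integral_congr
      intro z _
      simp only [hK]
      rw [show s - (s - z) = z by ring, mul_comm]
    rw [h1, sub_zero]
    have hcK : ContinuousOn (fun x => K s x * w x) (Iio 1) := by
      have : Continuous fun x => K s x := by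
        simp only [hK]
        exact hPsis.continuous.comp (by fun_prop)
      exact this.continuousOn.mul hwc
    have hi1 : IntervalIntegrable (fun x => K s x * w x) volume (s - 1) c := by
      apply ContinuousOn.intervalIntegrable
      apply hcK.mono
      intro x hx
      exact lt_of_le_of_lt hx.2 (max_lt (by linarith) hc1)
    have hi2 : IntervalIntegrable (fun x => K s x * w x) volume c s := by
      apply ContinuousOn.intervalIntegrable
      apply hcK.mono
      intro x hx
      exact lt_of_le_of_lt hx.2 (max_lt hc1 hs)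
    rw [← intervalIntegral.integral_add_adjacent_intervals hi1 hi2]
    have h2 : ∫ x in (s - 1)..c, K s x * w x = 0 := by
      rw [show (0:ℝ) = ∫ x in (s - 1)..c, (0:ℝ) by simp]
      apply intervalIntegral.integral_congr
      intro x hx
      have hxc : x ≤ c := by
        have := hx.2
        rwa [max_eq_right (by linarith)] at this
      simp only
      rw [hw.2 x hxc, mul_zero]
    rw [h2, zero_add]
  rw [hsplit, hout, hsub, hAeq s hs]
  have hsq : √(2 * p s) ≠ 0 := by positivity
  simp only [hD, hB, hR]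
  field_simp
  ring

end Pool.Agent.H874R3.MQ
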