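import Mathlib
import Pool.Agent.H874R3.MQ.Stmts

/-! Final assembly. -/

set_option autoImplicit false

open Real Set MeasureTheory Filter Topology
open scoped ContDiff

namespace Pool.Agent.H874R3.MQ

theorem final (hA : ThmA) (hSm : TaskSm) (hCirc : TaskCirc) (hP : TaskP) : Final := by
  intro α hα0 hα1
  set S : ℝ → ℝ := fun x => (x + α * (1 - x)) ^ 2 with hS
  set x0 : ℝ := α / 40 with hx0
  set x1 : ℝ := α / 20 with hx1
  have hx0p : 0 < x0 := by positivity
  have hx01 : x0 < x1 := by simp only [hx0, hx1]; linarith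
  have hx11 : x1 < 1 := by simp only [hx1]; linarith
  have hSmono : ∀ x y, 0 ≤ x → x < y → S x < S y := by
    intro x y hx hxy
    simp only [hS]
    have h1 : 0 < x + α * (1 - x) := by nlinarith
    have h2 : x + α * (1 - x) < y + α * (1 - y) := by nlinarith
    exact pow_lt_pow_left₀ h2 h1.le (by norm_num)
  have hSlt1 : ∀ x, 0 ≤ x → x < 1 → S x < 1 := by
    intro x hx hx1
    simp only [hS]
    have h1 : 0 < x + α * (1 - x) := by nlinarith
    have h2 : x + α * (1 - x) < 1 := by nlinarith
    nlinarith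
  have hS0 : S 0 = α ^ 2 := by simp only [hS]; ring
  set c0 : ℝ := S x0 with hc0
  set c : ℝ := S x1 with hc
  have hc0c : c0 < c := hSmono _ _ hx0p.le hx01
  have hαc0 : α ^ 2 < c0 := by rw [← hS0]; exact hSmono _ _ le_rfl hx0p
  have hcpos : 0 < c := by have : 0 < α ^ 2 := by positivity
                           linarith
  have hc1 : c < 1 := hSlt1 _ (hx0p.le.trans hx01.le) hx11
  have hα2 : 0 < α ^ 2 := by positivity
  -- bump
  let b : ContDiffBump (α ^ 2 / 2 : ℝ) :=
    { rIn := α ^ 2 / 8, rOut := α ^ 2 / 4, rIn_pos := by positivity, rIn_lt_rOut := by linarith }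
  set G0 : ℝ → ℝ := fun s => b s with hG0
  have hG0s : ContDiff ℝ ∞ G0 := b.contDiff
  have hG0z : ∀ s, α ^ 2 / 4 ≤ |s - α ^ 2 / 2| → G0 s = 0 := by
    intro s hs
    exact b.zero_of_le_dist (by rw [Real.dist_eq]; exact hs)
  have hG0one : G0 (α ^ 2 / 2) = 1 := by
    exact b.one_of_mem_closedBall (by simp [b.rIn_pos.le])
  have hG0far : ∀ s, 3 / 4 * α ^ 2 ≤ s → G0 s = 0 := by
    intro s hs
    apply hG0z
    rw [abs_of_nonneg (by linarith)]
    linarith
  obtain ⟨p, hps, hpos, hpe⟩ := hP α x0 hα0 hα1 hx0p (hx01.trans hx11)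
  -- arguments for small x
  have hfar : ∀ x, 0 ≤ x → x ≤ x1 → ∀ t : ℝ,
      3 / 4 * α ^ 2 ≤ (x + α * (1 - x)) ^ 2 - 2 * x * (α * (1 - x)) * (1 - cos t) := by
    intro x hx hxx t
    have h1 : 0 ≤ x * (α * (1 - x)) := by
      apply mul_nonneg hx
      apply mul_nonneg hα0.le
      linarith
    have h2 : (x + α * (1 - x)) ^ 2 - 2 * x * (α * (1 - x)) * (1 - cos t) ≥
        (α * (1 - x) - x) ^ 2 := by
      nlinarith [neg_one_le_cos t]
    have h3 : 9 / 10 * α ≤ α * (1 - x) - x := by
      have : x ≤ α / 20 := hxx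
      nlinarith
    have h4 : (9 / 10 * α) ^ 2 ≤ (α * (1 - x) - x) ^ 2 :=
      pow_le_pow_left₀ (by positivity) h3 2
    nlinarith
  have hTT0 : ∀ s, c0 ≤ s → s ≤ c → TT p G0 s = 0 := by
    intro s h1 h2
    have hspos : 0 < s := by linarith
    set x := (√s - α) / (1 - α) with hx
    have h1α : 0 < 1 - α := by linarith
    have hxs : x + α * (1 - x) = √s := by
      rw [hx]; field_simp; ring
    have hsS : S x = s := by
      simp only [hS]
      rw [hxs, Real.sq_sqrt hspos.le]
    have hx0' : x0 ≤ x := by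
      by_contra hcon
      push Not at hcon
      have hxnn : 0 ≤ x := by
        rw [hx]
        apply div_nonneg _ h1α.le
        have : α ≤ √s := by
          apply Real.le_sqrt_of_sq_le
          linarith
        linarith
      have := hSmono x x0 hxnn hcon
      rw [hsS] at this
      linarith
    have hx1' : x ≤ x1 := by
      by_contra hcon
      push Not at hcon
      have := hSmono x1 x (hx0p.le.trans hx01.le) hcon
      rw [hsS] at this
      linarith
    have hp1 : p s = 2 * x * (α * (1 - x)) := by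
      rw [← hsS]
      exact hpe x hx0' (lt_of_le_of_lt hx1' hx11)
    unfold TT
    refine (intervalIntegral.integral_congr (g := fun _ => (0:ℝ)) ?_).trans (by simp)
    intro t _
    simp only
    have h3 := hfar x (hx0p.le.trans hx0') hx1' t
    rw [← hp1, show (x + α * (1 - x)) ^ 2 = s from hsS] at h3
    rw [hG0far _ h3, zero_mul]
  -- right hand side
  set Φ : ℝ → ℝ := fun s => if s ≤ c then 0 else - TT p G0 s with hΦ
  have hTTs : ContDiff ℝ ∞ (TT p G0) := hSm.2 p G0 hps hG0s
  have hΦX : XX c Φ := by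
    refine ⟨?_, fun s hs => by simp only [hΦ, if_pos hs]⟩
    intro s hs
    apply ContDiffAt.contDiffWithinAt
    rcases lt_or_ge s c with h | h
    · apply (contDiffAt_const (c := (0:ℝ))).congr_of_eventuallyEq
      filter_upwards [isOpen_Iio.mem_nhds h] with y hy
      have hy' : y ≤ c := le_of_lt (show y < c from hy)
      simp only [hΦ, if_pos hy']
    · apply (hTTs.neg.contDiffAt).congr_of_eventuallyEq
      filter_upwards [isOpen_Ioi.mem_nhds (lt_of_lt_of_le hc0c h)] with y hy
      simp only [hΦ]
      split_ifs with hyc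
      · rw [hTT0 y (le_of_lt (show c0 < y from hy)) hyc, neg_zero]
      · rfl
  obtain ⟨w, hw, hweq⟩ := hA p c Φ hps hpos hcpos hc1 hΦX
  have hGG := hSm.1 c w hcpos hw
  set G : ℝ → ℝ := fun s => G0 s + GG w s with hG
  have hGc : ContinuousOn G (Iio 1) := hG0s.continuous.continuousOn.add hGG.1.continuousOn
  refine ⟨fun ζ => ((G (‖ζ‖ ^ 2) : ℝ) : ℂ), ?_, ?_, ?_⟩
  · have h1 : ContinuousOn (fun ζ : ℂ => G (‖ζ‖ ^ 2)) (Metric.ball 0 1) := by
      apply hGc.comp (by fun_prop)
      intro ζ hζ
      have : ‖ζ‖ < 1 := by simpa using hζ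
      have h0 := norm_nonneg ζ
      simp only [mem_Iio]
      nlinarith
    exact Complex.continuous_ofReal.comp_continuousOn h1
  · intro z hz
    have hz1 : ‖z‖ < 1 := by simpa using hz
    have hz0 := norm_nonneg z
    have hr : 0 ≤ α * (1 - ‖z‖) := mul_nonneg hα0.le (by linarith)
    apply hCirc G z (α * (1 - ‖z‖)) hGc hr (by nlinarith)
    set x := ‖z‖ with hx
    rcases le_or_gt x x1 with hxx | hxx
    · refine (intervalIntegral.integral_congr (g := fun _ => (0:ℝ)) ?_).trans (by simp)
      intro t _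
      simp only
      have h1 := hfar x hz0 hxx t
      have h2 : (x + α * (1 - x)) ^ 2 - 2 * x * (α * (1 - x)) * (1 - cos t) ≤ c := by
        have h3 : S x ≤ c := by
          rcases eq_or_lt_of_le hxx with h | h
          · rw [h]
          · exact (hSmono x x1 hz0 h).le
        have h4 : 0 ≤ 2 * x * (α * (1 - x)) * (1 - cos t) := by
          apply mul_nonneg (by positivity)
          linarith [cos_le_one t]
        simp only [hS] at h3
        linarith
      simp only [hG]
      rw [hG0far _ h1, hGG.2 _ h2]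
      simp
    · have hsc : c < S x := hSmono x1 x (hx0p.le.trans hx01.le) hxx
      have hs1 : S x < 1 := hSlt1 x hz0 hz1
      have hp1 : p (S x) = 2 * x * (α * (1 - x)) := hpe x (hx01.le.trans hxx.le) hz1
      have hpp := hpos (S x) hs1
      have h1 : ∫ t in (0:ℝ)..π,
          G ((x + α * (1 - x)) ^ 2 - 2 * x * (α * (1 - x)) * (1 - cos t)) * cos t =
          TT p G0 (S x) + TT p (GG w) (S x) := by
        unfold TT
        rw [← intervalIntegral.integral_add]
        · apply intervalIntegral.integral_congr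
          intro t _
          simp only [hG, hp1]
          simp only [hS]
          ring
        · exact ((hG0s.continuous.comp (by fun_prop)).mul continuous_cos).intervalIntegrable _ _
        · apply Continuous.intervalIntegrable
          apply Continuous.mul _ continuous_cos
          apply hGG.1.continuousOn.comp_continuous (by fun_prop)
          intro t
          have h1 : 0 ≤ p (S x) * (1 - cos t) := mul_nonneg hpp.le (by linarith [cos_le_one t])
          simp only [mem_Iio]
          linarith
      rw [h1, hweq _ hs1]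
      simp only [hΦ]
      rw [if_neg (not_le.2 hsc)]
      ring
  · intro hd
    have han := hd.analyticOnNhd Metric.isOpen_ball
    have h0 : (fun ζ : ℂ => ((G (‖ζ‖ ^ 2) : ℝ) : ℂ)) =ᶠ[𝓝 0] 0 := by
      have : Metric.ball (0:ℂ) (α / 2) ∈ 𝓝 (0:ℂ) := Metric.ball_mem_nhds _ (by positivity)
      filter_upwards [this] with ζ hζ
      have h1 : ‖ζ‖ < α / 2 := by simpa using hζ
      have h2 : ‖ζ‖ ^ 2 ≤ α ^ 2 / 4 := by
        have := norm_nonneg ζ
        nlinarith
      have h3 : G (‖ζ‖ ^ 2) = 0 := by
        simp only [hG]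
        rw [hG0z, hGG.2 _ (by linarith), add_zero]
        rw [abs_of_nonpos (by linarith)]
        linarith
      simp [h3]
    have hEq := han.eqOn_zero_of_preconnected_of_eventuallyEq_zero
      (convex_ball (0:ℂ) 1).isPreconnected (Metric.mem_ball_self one_pos) h0
    have hnorm : ‖((α / √2 : ℝ) : ℂ)‖ = α / √2 := by
      rw [Complex.norm_real, Real.norm_eq_abs, abs_of_pos (by positivity)]
    have h2' : (α / √2) ^ 2 = α ^ 2 / 2 := by
      rw [div_pow, Real.sq_sqrt (by norm_num)]
    have hmem : ((α / √2 : ℝ) : ℂ) ∈ Metric.ball (0:ℂ) 1 := by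
      rw [mem_ball_zero_iff, hnorm]
      have h5 : (α / √2) ^ 2 < 1 := by rw [h2']; nlinarith
      have h6 : 0 ≤ α / √2 := by positivity
      nlinarith
    have h7 := hEq hmem
    simp only [hnorm, h2', Pi.zero_apply] at h7
    have h8 : G (α ^ 2 / 2) = 1 := by
      simp only [hG]
      rw [hG0one, hGG.2 _ (by linarith), add_zero]
    rw [h8] at h7
    simp at h7

end Pool.Agent.H874R3.MQ
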